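import Mathlib

set_option autoImplicit false

open Set TopologicalSpace Cardinal

namespace Pool.Agent.Results.MP_312f56_gt.UnderUltrafilterLtGroupwise

/-- An open ω-cover of `Z`: a family of open sets, not containing `Z` itself, such that every
finite subset of `Z` is contained in a member of the family. -/
def IsOmegaCover {Z : Type*} [TopologicalSpace Z] (𝒰 : Set (Set Z)) : Prop :=
  (∀ U ∈ 𝒰, IsOpen U) ∧ Set.univ ∉ 𝒰 ∧ ∀ F : Set Z, F.Finite → ∃ U ∈ 𝒰, F ⊆ U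

/-- A large open cover of `Z`: a family of open sets, not containing `Z` itself, such that
every point of `Z` lies in infinitely many members of the family. -/
def IsLargeCover {Z : Type*} [TopologicalSpace Z] (𝒰 : Set (Set Z)) : Prop :=
  (∀ U ∈ 𝒰, IsOpen U) ∧ Set.univ ∉ 𝒰 ∧ ∀ z : Z, {U ∈ 𝒰 | z ∈ U}.Infinite

/-- The property Split(Ω,Λ): every open ω-cover is the union of two disjoint subfamilies, each of
which contains a large open cover. -/
def SplitOL (Z : Type*) [TopologicalSpace Z] : Prop :=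
  ∀ 𝒰 : Set (Set Z), IsOmegaCover 𝒰 →
    ∃ 𝒱 𝒲 : Set (Set Z), 𝒱 ∪ 𝒲 = 𝒰 ∧ Disjoint 𝒱 𝒲 ∧
      (∃ 𝒱' ⊆ 𝒱, IsLargeCover 𝒱') ∧ ∃ 𝒲' ⊆ 𝒲, IsLargeCover 𝒲'

/-- The class `S` of all sets of reals satisfying Split(Ω,Λ). -/
def splitClass : Set (Set ℝ) := {X | SplitOL X}

/-- The additivity number of a class of sets of reals: the least cardinality of a subfamily of
the class whose union is not in the class. -/
noncomputable def additivity (𝒥 : Set (Set ℝ)) : Cardinal :=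
  sInf {κ | ∃ 𝓕 : Set (Set ℝ), 𝓕 ⊆ 𝒥 ∧ ⋃₀ 𝓕 ∉ 𝒥 ∧ Cardinal.mk 𝓕 = κ}

/-- Countably many infinite sets of naturals can be split simultaneously. -/
theorem exists_split_countable {ι : Type*} [Countable ι] (A : ι → Set ℕ)
    (hA : ∀ i, (A i).Infinite) :
    ∃ B : Set ℕ, ∀ i, (A i ∩ B).Infinite ∧ (A i \ B).Infinite := by
  classical
  rcases isEmpty_or_nonempty ι with hι | hι
  · exact ⟨∅, fun i => (hι.false i).elim⟩
  obtain ⟨e, he⟩ := exists_surjective_nat ι
  have hnx : ∀ (i : ι) (N : ℕ), ∃ n ∈ A i, N < n := fun i N =>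
    (Set.infinite_iff_exists_gt.1 (hA i)) N
  choose nx hnx1 hnx2 using hnx
  let idx : ℕ → ι := fun m => e (Nat.unpair (m / 2)).1
  let n : ℕ → ℕ := fun m => Nat.rec (nx (idx 0) 0) (fun m r => nx (idx (m + 1)) r) m
  have hn : ∀ m, n m ∈ A (idx m) := by
    intro m
    cases m with
    | zero => exact hnx1 _ _
    | succ m => exact hnx1 _ _
  have hmono : StrictMono n := strictMono_nat_of_lt_succ (fun m => hnx2 _ _)
  refine ⟨Set.range (fun k => n (2 * k)), fun i => ?_⟩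
  obtain ⟨t, rfl⟩ := he i
  constructor
  · have h1 : (Set.range (fun s => n (2 * Nat.pair t s))).Infinite := by
      apply Set.infinite_range_of_injective
      intro s s' hss
      have := hmono.injective hss
      have h2 : Nat.pair t s = Nat.pair t s' := by omega
      exact (Nat.pair_eq_pair.1 h2).2
    refine h1.mono ?_
    rintro _ ⟨s, rfl⟩
    refine ⟨?_, ⟨Nat.pair t s, rfl⟩⟩
    have := hn (2 * Nat.pair t s)
    simpa [idx] using this
  · have h1 : (Set.range (fun s => n (2 * Nat.pair t s + 1))).Infinite := by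
      apply Set.infinite_range_of_injective
      intro s s' hss
      have h5 : 2 * Nat.pair t s + 1 = 2 * Nat.pair t s' + 1 := hmono.injective hss
      have h2 : Nat.pair t s = Nat.pair t s' := by omega
      exact (Nat.pair_eq_pair.1 h2).2
    refine h1.mono ?_
    rintro _ ⟨s, rfl⟩
    refine ⟨?_, ?_⟩
    · have := hn (2 * Nat.pair t s + 1)
      have h3 : (2 * Nat.pair t s + 1) / 2 = Nat.pair t s := by omega
      simpa [idx, h3] using this
    · rintro ⟨k, hk⟩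
      have h5 : 2 * k = 2 * Nat.pair t s + 1 := hmono.injective hk
      omega

/-- A base of a nonprincipal ultrafilter on the naturals. -/
def IsUltrafilterBase (B : Set (Set ℕ)) : Prop :=
  ∃ p : Ultrafilter ℕ, (∀ A ∈ p, A.Infinite) ∧ ∀ A : Set ℕ, A ∈ p ↔ ∃ b ∈ B, b ⊆ A

/-- The ultrafilter number `u`: the least cardinality of a base of a nonprincipal ultrafilter. -/
noncomputable def ultrafilterNumber : Cardinal :=
  sInf {κ | ∃ B : Set (Set ℕ), IsUltrafilterBase B ∧ Cardinal.mk B = κ}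

/-- Sanity check: nonprincipal ultrafilters exist, so the defining set of `u` is nonempty. -/
theorem exists_isUltrafilterBase : ∃ B : Set (Set ℕ), IsUltrafilterBase B := by
  refine ⟨{A | A ∈ Filter.hyperfilter ℕ}, Filter.hyperfilter ℕ, ?_, ?_⟩
  · intro A hA
    by_contra hcon
    exact Filter.notMem_hyperfilter_of_finite (Set.not_infinite.1 hcon) hA
  · intro A
    constructor
    · intro h
      exact ⟨A, h, Subset.rfl⟩
    · rintro ⟨b, hb, hbA⟩
      exact Filter.mem_of_superset hb hbA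

theorem exists_isUltrafilterBase_card : ∃ B : Set (Set ℕ), IsUltrafilterBase B ∧
    Cardinal.mk B = ultrafilterNumber := by
  obtain ⟨B, hB⟩ := exists_isUltrafilterBase
  have : ultrafilterNumber ∈ {κ | ∃ B : Set (Set ℕ), IsUltrafilterBase B ∧ Cardinal.mk B = κ} :=
    csInf_mem ⟨_, B, hB, rfl⟩
  exact this


theorem ultrafilterNumber_le {B : Set (Set ℕ)} (hB : IsUltrafilterBase B) :
    ultrafilterNumber ≤ Cardinal.mk B :=
  csInf_le' ⟨B, hB, rfl⟩

/-- The ultrafilter number is uncountable. -/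
theorem aleph0_lt_ultrafilterNumber : Cardinal.aleph0 < ultrafilterNumber := by
  by_contra hcon
  obtain ⟨B, ⟨p, hp1, hp2⟩, hcard⟩ := exists_isUltrafilterBase_card
  have hcount : Countable B := by
    rw [← Cardinal.mk_le_aleph0_iff, hcard]
    exact not_lt.1 hcon
  have hBp : ∀ b ∈ B, b ∈ p := fun b hb => (hp2 b).2 ⟨b, hb, Subset.rfl⟩
  obtain ⟨S, hS⟩ := exists_split_countable (fun b : B => (b : Set ℕ)) (fun b => hp1 _ (hBp _ b.2))
  rcases p.mem_or_compl_mem S with h | h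
  · obtain ⟨b, hb, hbS⟩ := (hp2 S).1 h
    refine (hS ⟨b, hb⟩).2 ?_
    have : b \ S = ∅ := Set.sdiff_eq_empty.2 hbS
    rw [this]
    exact Set.finite_empty
  · obtain ⟨b, hb, hbS⟩ := (hp2 Sᶜ).1 h
    refine (hS ⟨b, hb⟩).1 ?_
    have : b ∩ S = ∅ := by
      rw [← Set.disjoint_iff_inter_eq_empty]
      exact Set.disjoint_left.2 (fun n h1 h2 => hbS h1 h2)
    rw [this]
    exact Set.finite_empty

/-- In a second countable space every open ω-cover contains a countable one. -/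
theorem exists_countable_omega {Z : Type*} [TopologicalSpace Z] [SecondCountableTopology Z]
    {𝒰 : Set (Set Z)} (hU : IsOmegaCover 𝒰) :
    ∃ 𝒱 : Set (Set Z), 𝒱 ⊆ 𝒰 ∧ 𝒱.Countable ∧ IsOmegaCover 𝒱 := by
  classical
  let 𝓓 : Set (Set (Set Z)) := {T | T.Finite ∧ T ⊆ countableBasis Z}
  have h𝓓 : 𝓓.Countable := Set.countable_ofPred_finite_subset (countable_countableBasis Z)
  have h1 : ∀ T : Set (Set Z), ∃ U : Set Z, (∃ U' ∈ 𝒰, ⋃₀ T ⊆ U') → U ∈ 𝒰 ∧ ⋃₀ T ⊆ U := by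
    intro T
    by_cases h : ∃ U' ∈ 𝒰, ⋃₀ T ⊆ U'
    · obtain ⟨U', h1, h2⟩ := h
      exact ⟨U', fun _ => ⟨h1, h2⟩⟩
    · exact ⟨∅, fun h' => absurd h' h⟩
  choose Φ hΦ using h1
  refine ⟨Φ '' {T ∈ 𝓓 | ∃ U' ∈ 𝒰, ⋃₀ T ⊆ U'}, ?_, ?_, ?_, ?_, ?_⟩
  · rintro _ ⟨T, hT, rfl⟩
    exact (hΦ T hT.2).1
  · exact (h𝓓.mono (fun T hT => hT.1)).image Φ
  · rintro _ ⟨T, hT, rfl⟩
    exact hU.1 _ (hΦ T hT.2).1
  · rintro ⟨T, hT, h⟩
    exact hU.2.1 (h ▸ (hΦ T hT.2).1)
  · intro F hF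
    obtain ⟨U, hU1, hU2⟩ := hU.2.2 F hF
    have h3 : ∀ x ∈ F, ∃ W ∈ countableBasis Z, x ∈ W ∧ W ⊆ U := fun x hx =>
      (isBasis_countableBasis Z).exists_subset_of_mem_open (hU2 hx) (hU.1 U hU1)
    choose! w hw1 hw2 hw3 using h3
    have hT : (w '' F) ∈ {T ∈ 𝓓 | ∃ U' ∈ 𝒰, ⋃₀ T ⊆ U'} := by
      refine ⟨⟨hF.image w, ?_⟩, U, hU1, ?_⟩
      · rintro _ ⟨x, hx, rfl⟩
        exact hw1 x hx
      · refine Set.sUnion_subset ?_
        rintro _ ⟨x, hx, rfl⟩
        exact hw3 x hx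
    refine ⟨_, ⟨_, hT, rfl⟩, ?_⟩
    intro x hx
    exact (hΦ _ hT.2).2 ⟨w x, ⟨x, hx, rfl⟩, hw2 x hx⟩

/-- In an ω-cover every finite set is contained in infinitely many members. -/
theorem omega_infinite {Z : Type*} [TopologicalSpace Z] {𝒰 : Set (Set Z)} (hU : IsOmegaCover 𝒰)
    (F : Set Z) (hF : F.Finite) : {U ∈ 𝒰 | F ⊆ U}.Infinite := by
  classical
  intro hfin
  have h1 : ∀ U ∈ {U ∈ 𝒰 | F ⊆ U}, ∃ x, x ∉ U := by
    rintro U ⟨hU1, _⟩
    by_contra hcon
    push Not at hcon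
    exact hU.2.1 ((Set.eq_univ_iff_forall.2 hcon) ▸ hU1)
  have hne : Nonempty Z := by
    obtain ⟨U0, hU0, _⟩ := hU.2.2 ∅ Set.finite_empty
    by_contra hcon
    rw [not_nonempty_iff] at hcon
    exact hU.2.1 ((Set.eq_univ_of_forall (fun z => (hcon.false z).elim) : U0 = Set.univ) ▸ hU0)
  choose! x hx using h1
  obtain ⟨U, hU1, hU2⟩ := hU.2.2 (F ∪ x '' {U ∈ 𝒰 | F ⊆ U}) (hF.union (hfin.image x))
  have hU3 : U ∈ {U ∈ 𝒰 | F ⊆ U} := ⟨hU1, subset_union_left.trans hU2⟩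
  exact hx U hU3 (hU2 (Or.inr ⟨U, hU3, rfl⟩))

/-- Spaces of cardinality less than the ultrafilter number satisfy Split(Ω,Λ). -/
theorem split_of_card_lt {Y : Type} [TopologicalSpace Y] [SecondCountableTopology Y]
    (hY : Cardinal.mk Y < ultrafilterNumber) : SplitOL Y := by
  classical
  intro 𝒰 h𝒰
  obtain ⟨𝒰', hsub, hcount, homega⟩ := exists_countable_omega h𝒰
  have hinf : 𝒰'.Infinite := (omega_infinite homega ∅ Set.finite_empty).mono (fun U hU => hU.1)
  obtain ⟨U, hUinj, hUr⟩ : ∃ U : ℕ → Set Y, Function.Injective U ∧ Set.range U = 𝒰' := by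
    have : Infinite 𝒰' := hinf.to_subtype
    have : Countable 𝒰' := hcount.to_subtype
    obtain ⟨e⟩ := nonempty_equiv_of_countable (α := ℕ) (β := 𝒰')
    refine ⟨fun n => (e n : Set Y), fun n m h => e.injective (Subtype.ext h), ?_⟩
    ext V
    constructor
    · rintro ⟨n, rfl⟩
      exact (e n).2
    · intro hV
      exact ⟨e.symm ⟨V, hV⟩, by simp⟩
  have hUinf : ∀ F : Set Y, F.Finite → {n | F ⊆ U n}.Infinite := by
    intro F hF
    refine Set.Infinite.of_image U ((omega_infinite homega F hF).mono ?_)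
    rintro V ⟨hV, hz⟩
    obtain ⟨n, rfl⟩ : V ∈ Set.range U := hUr ▸ hV
    exact ⟨n, hz, rfl⟩
  obtain ⟨S, hS⟩ : ∃ S : Set ℕ, ∀ y, ({n | y ∈ U n} ∩ S).Infinite ∧ ({n | y ∈ U n} \ S).Infinite := by
    by_contra hcon
    push Not at hcon
    have hreap : ∀ S : Set ℕ, ∃ y, ({n | y ∈ U n} ∩ S).Finite ∨ ({n | y ∈ U n} \ S).Finite := by
      intro S
      obtain ⟨y, hy⟩ := hcon S
      refine ⟨y, ?_⟩
      by_cases h1 : ({n | y ∈ U n} ∩ S).Infinite
      · exact Or.inr (hy h1)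
      · exact Or.inl (Set.not_infinite.1 h1)
    -- the ultrafilter
    let f : Filter ℕ :=
      { sets := {A | ∃ y, ({n | y ∈ U n} \ A).Finite}
        univ_sets := by
          obtain ⟨y, _⟩ := hreap ∅
          exact ⟨y, by simp⟩
        sets_of_superset := by
          rintro A A' ⟨y, hy⟩ hAA'
          exact ⟨y, hy.subset (Set.sdiff_subset_sdiff_right hAA')⟩
        inter_sets := by
          rintro A A' ⟨y, hy⟩ ⟨y', hy'⟩
          obtain ⟨z, hz | hz⟩ := hreap (A ∩ A')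
          · exfalso
            have h1 := hUinf {y, y', z} (by simp)
            apply h1
            refine ((hy.union hy').union hz).subset ?_
            intro n hn
            have hn1 : y ∈ U n := hn (by simp)
            have hn2 : y' ∈ U n := hn (by simp)
            have hn3 : z ∈ U n := hn (by simp)
            by_cases hA : n ∈ A
            · by_cases hA' : n ∈ A'
              · exact Or.inr ⟨hn3, hA, hA'⟩
              · exact Or.inl (Or.inr ⟨hn2, hA'⟩)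
            · exact Or.inl (Or.inl ⟨hn1, hA⟩)
          · exact ⟨z, hz⟩ }
    have hfmem : ∀ A, A ∈ f ↔ ∃ y, ({n | y ∈ U n} \ A).Finite := fun A => Iff.rfl
    have hy_inf : ∀ y, {n | y ∈ U n}.Infinite := by
      intro y
      refine (hUinf {y} (Set.finite_singleton y)).mono ?_
      intro n hn
      exact hn rfl
    have hfinf : ∀ A ∈ f, A.Infinite := by
      rintro A ⟨y, hy⟩ hA
      apply hy_inf y
      refine (hy.union hA).subset ?_
      intro n hn
      by_cases h : n ∈ A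
      · exact Or.inr h
      · exact Or.inl ⟨hn, h⟩
    let p : Ultrafilter ℕ := Ultrafilter.ofComplNotMemIff f (by
      intro A
      constructor
      · intro h
        obtain ⟨z, hz | hz⟩ := hreap A
        · exfalso
          refine h ⟨z, ?_⟩
          rw [Set.sdiff_compl]
          exact hz
        · exact ⟨z, hz⟩
      · intro h h'
        have h2 := f.inter_sets h h'
        rw [Set.inter_compl_self] at h2
        exact hfinf ∅ h2 Set.finite_empty)
    have hpmem : ∀ A, A ∈ p ↔ ∃ y, ({n | y ∈ U n} \ A).Finite := fun A => Iff.rfl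
    let B : Set (Set ℕ) := Set.range (fun q : Y × Finset ℕ => {n | q.1 ∈ U n} \ (q.2 : Set ℕ))
    have hB : IsUltrafilterBase B := by
      refine ⟨p, hfinf, fun A => ?_⟩
      rw [hpmem]
      constructor
      · rintro ⟨y, hy⟩
        refine ⟨_, ⟨(y, hy.toFinset), rfl⟩, ?_⟩
        rintro n ⟨h1, h2⟩
        by_contra h3
        exact h2 (by simpa using ⟨h1, h3⟩)
      · rintro ⟨_, ⟨⟨y, F⟩, rfl⟩, h⟩
        refine ⟨y, F.finite_toSet.subset ?_⟩
        rintro n ⟨h1, h2⟩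
        by_contra h3
        exact h2 (h ⟨h1, h3⟩)
    have hcard : Cardinal.mk B < ultrafilterNumber := by
      calc Cardinal.mk B ≤ Cardinal.mk (Y × Finset ℕ) := Cardinal.mk_range_le
        _ = Cardinal.mk Y * Cardinal.aleph0 := by simp
        _ ≤ max (max (Cardinal.mk Y) Cardinal.aleph0) Cardinal.aleph0 := Cardinal.mul_le_max _ _
        _ < ultrafilterNumber :=
          max_lt (max_lt hY aleph0_lt_ultrafilterNumber) aleph0_lt_ultrafilterNumber
    exact absurd (ultrafilterNumber_le hB) (not_le.2 hcard)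
  refine ⟨U '' S, 𝒰 \ (U '' S), ?_, disjoint_sdiff_right, ⟨U '' S, Subset.rfl, ?_⟩,
    ⟨U '' Sᶜ, ?_, ?_⟩⟩
  · refine union_sdiff_cancel ?_
    rintro _ ⟨n, _, rfl⟩
    exact hsub (hUr ▸ ⟨n, rfl⟩)
  · refine ⟨?_, ?_, ?_⟩
    · rintro _ ⟨n, _, rfl⟩
      exact homega.1 _ (hUr ▸ ⟨n, rfl⟩)
    · rintro ⟨n, _, hn⟩
      exact homega.2.1 (hUr ▸ ⟨n, hn⟩)
    · intro y
      refine ((hS y).1.image hUinj.injOn).mono ?_
      rintro _ ⟨n, ⟨hn1, hn2⟩, rfl⟩
      exact ⟨⟨n, hn2, rfl⟩, hn1⟩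
  · rintro _ ⟨n, hn, rfl⟩
    refine ⟨hsub (hUr ▸ ⟨n, rfl⟩), ?_⟩
    rintro ⟨m, hm, hmn⟩
    exact hn (hUinj hmn ▸ hm)
  · refine ⟨?_, ?_, ?_⟩
    · rintro _ ⟨n, _, rfl⟩
      exact homega.1 _ (hUr ▸ ⟨n, rfl⟩)
    · rintro ⟨n, _, hn⟩
      exact homega.2.1 (hUr ▸ ⟨n, hn⟩)
    · intro y
      refine ((hS y).2.image hUinj.injOn).mono ?_
      rintro _ ⟨n, ⟨hn1, hn2⟩, rfl⟩
      exact ⟨⟨n, hn2, rfl⟩, hn1⟩

/-- There is a set of reals of cardinality `u` which does not satisfy Split(Ω,Λ). -/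
theorem exists_not_split : ∃ X : Set ℝ, Cardinal.mk X = ultrafilterNumber ∧ ¬ SplitOL X := by
  classical
  obtain ⟨B, ⟨p, hp1, hp2⟩, hcard⟩ := exists_isUltrafilterBase_card
  have hBp : ∀ b ∈ B, b ∈ p := fun b hb => (hp2 b).2 ⟨b, hb, Subset.rfl⟩
  let H := cantorSetHomeomorphNatToBool
  let e : Set ℕ → ℝ := fun b => (H.symm (fun n => decide (n ∈ b)) : ℝ)
  have he : Function.Injective e := by
    intro b b' h
    have h1 := H.symm.injective (Subtype.ext h)
    ext n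
    have h2 := congrFun h1 n
    simpa using h2
  let X : Set ℝ := e '' B
  refine ⟨X, by rw [← hcard]; exact Cardinal.mk_image_eq he, ?_⟩
  have hXC : X ⊆ cantorSet := by
    rintro _ ⟨b, _, rfl⟩
    exact (H.symm _).2
  let d : X → (ℕ → Bool) := fun x => H ⟨x.1, hXC x.2⟩
  have hd : Continuous d := H.continuous.comp (continuous_subtype_val.subtype_mk _)
  have hde : ∀ (b : Set ℕ) (hb : b ∈ B), d ⟨e b, ⟨b, hb, rfl⟩⟩ = fun n => decide (n ∈ b) := by
    intro b hb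
    show H ⟨e b, _⟩ = _
    have : (⟨e b, hXC ⟨b, hb, rfl⟩⟩ : cantorSet) = H.symm (fun n => decide (n ∈ b)) :=
      Subtype.ext rfl
    rw [this, H.apply_symm_apply]
  let U : ℕ → Set X := fun n => {x | d x n = true}
  have hUmem : ∀ (b : Set ℕ) (hb : b ∈ B) (n : ℕ), (⟨e b, ⟨b, hb, rfl⟩⟩ : X) ∈ U n ↔ n ∈ b := by
    intro b hb n
    show d _ n = true ↔ _
    rw [hde b hb]
    simp
  have hUo : ∀ n, IsOpen (U n) := by
    intro n
    exact (isOpen_discrete ({true} : Set Bool)).preimage ((continuous_apply n).comp hd)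
  have hUne : ∀ n, U n ≠ Set.univ := by
    intro n h
    have h1 : ({n}ᶜ : Set ℕ) ∈ p := by
      rcases p.mem_or_compl_mem {n} with h2 | h2
      · exact absurd (Set.finite_singleton n) (hp1 _ h2)
      · exact h2
    obtain ⟨b, hb, hbn⟩ := (hp2 _).1 h1
    have h2 : (⟨e b, ⟨b, hb, rfl⟩⟩ : X) ∈ U n := h ▸ mem_univ _
    exact hbn ((hUmem b hb n).1 h2) rfl
  intro hsplit
  obtain ⟨𝒱, 𝒲, hun, hdisj, ⟨𝒱', h𝒱', hV⟩, ⟨𝒲', h𝒲', hW⟩⟩ := hsplit (Set.range U) (by
    refine ⟨?_, ?_, ?_⟩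
    · rintro _ ⟨n, rfl⟩
      exact hUo n
    · rintro ⟨n, hn⟩
      exact hUne n hn
    · intro F hF
      have h1 : ∀ x : X, {n | x ∈ U n} ∈ p := by
        rintro ⟨_, b, hb, rfl⟩
        have : {n | (⟨e b, ⟨b, hb, rfl⟩⟩ : X) ∈ U n} = b := by
          ext n
          exact hUmem b hb n
        rw [this]
        exact hBp b hb
      have h2 : (⋂ x ∈ F, {n | x ∈ U n}) ∈ p := (Filter.biInter_mem hF).2 (fun x _ => h1 x)
      obtain ⟨n, hn⟩ := (hp1 _ h2).nonempty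
      refine ⟨U n, ⟨n, rfl⟩, fun x hx => ?_⟩
      exact mem_iInter₂.1 hn x hx)
  have hall : ∀ n, U n ∈ 𝒱 ∨ U n ∈ 𝒲 := by
    intro n
    have : U n ∈ 𝒱 ∪ 𝒲 := hun ▸ ⟨n, rfl⟩
    exact this
  have hV'r : ∀ V ∈ 𝒱', ∃ n, U n = V := fun V hV1 => by
    have : V ∈ Set.range U := hun ▸ Or.inl (h𝒱' hV1)
    exact this
  have hW'r : ∀ V ∈ 𝒲', ∃ n, U n = V := fun V hV1 => by
    have : V ∈ Set.range U := hun ▸ Or.inr (h𝒲' hV1)
    exact this
  rcases p.mem_or_compl_mem {n | U n ∈ 𝒱} with h | h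
  · obtain ⟨b, hb, hbS⟩ := (hp2 _).1 h
    obtain ⟨V, hV1, hV2⟩ := (hW.2.2 ⟨e b, ⟨b, hb, rfl⟩⟩).nonempty
    obtain ⟨n, rfl⟩ := hW'r V hV1
    have h1 : n ∈ b := (hUmem b hb n).1 hV2
    exact (Set.disjoint_left.1 hdisj) (hbS h1) (h𝒲' hV1)
  · obtain ⟨b, hb, hbS⟩ := (hp2 _).1 h
    obtain ⟨V, hV1, hV2⟩ := (hV.2.2 ⟨e b, ⟨b, hb, rfl⟩⟩).nonempty
    obtain ⟨n, rfl⟩ := hV'r V hV1
    have h1 : n ∈ b := (hUmem b hb n).1 hV2
    exact hbS h1 (h𝒱' hV1)

/-- A groupwise dense family: a family of infinite sets of naturals, closed under infinite almost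
subsets, which for every partition of the naturals into finite intervals contains the union of
infinitely many of the intervals. -/
def IsGroupwiseDense (G : Set (Set ℕ)) : Prop :=
  (∀ A ∈ G, A.Infinite) ∧ (∀ A ∈ G, ∀ B : Set ℕ, B.Infinite → (B \ A).Finite → B ∈ G) ∧
    ∀ a : ℕ → ℕ, a 0 = 0 → StrictMono a →
      ∃ C : Set ℕ, C.Infinite ∧ (⋃ i ∈ C, Set.Ico (a i) (a (i + 1))) ∈ G

/-- The groupwise density number `g`: the least number of groupwise dense families with empty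
intersection. -/
noncomputable def groupwiseDensityNumber : Cardinal :=
  sInf {κ | ∃ 𝒢 : Set (Set (Set ℕ)), (∀ G ∈ 𝒢, IsGroupwiseDense G) ∧ ⋂₀ 𝒢 = ∅ ∧
    Cardinal.mk 𝒢 = κ}

theorem groupwiseDensityNumber_le {𝒢 : Set (Set (Set ℕ))} (h : ∀ G ∈ 𝒢, IsGroupwiseDense G)
    (h' : ⋂₀ 𝒢 = ∅) : groupwiseDensityNumber ≤ Cardinal.mk 𝒢 :=
  csInf_le' ⟨𝒢, h, h', rfl⟩

/-- A strictly increasing sequence starting at zero catches every natural number. -/
theorem exists_block {a : ℕ → ℕ} (ha0 : a 0 = 0) (ha : StrictMono a) (m : ℕ) :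
    ∃ i, a i ≤ m ∧ m < a (i + 1) := by
  have hex : ∃ i, m < a (i + 1) := ⟨m, lt_of_lt_of_le (Nat.lt_succ_self m) (ha.id_le (m + 1))⟩
  classical
  refine ⟨Nat.find hex, ?_, Nat.find_spec hex⟩
  rcases Nat.eq_zero_or_pos (Nat.find hex) with h0 | h0
  · rw [h0, ha0]
    exact Nat.zero_le _
  · obtain ⟨t, ht⟩ : ∃ t, Nat.find hex = t + 1 := ⟨Nat.find hex - 1, by omega⟩
    have := Nat.find_min hex (m := t) (by omega)
    rw [ht]
    omega

/-- Sanity check: there are groupwise dense families with empty intersection. -/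
theorem exists_groupwiseDense_empty : ∃ 𝒢 : Set (Set (Set ℕ)),
    (∀ G ∈ 𝒢, IsGroupwiseDense G) ∧ ⋂₀ 𝒢 = ∅ := by
  classical
  refine ⟨Set.range (fun A : {A : Set ℕ // A.Infinite} =>
    {B : Set ℕ | B.Infinite ∧ (A.1 \ B).Infinite}), ?_, ?_⟩
  · rintro _ ⟨⟨A, hA⟩, rfl⟩
    refine ⟨fun B hB => hB.1, ?_, ?_⟩
    · rintro B ⟨hB1, hB2⟩ B' hB' hfin
      refine ⟨hB', ?_⟩
      intro hcon
      apply hB2
      refine (hcon.union hfin).subset ?_
      rintro n ⟨h1, h2⟩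
      by_cases h3 : n ∈ B'
      · exact Or.inr ⟨h3, h2⟩
      · exact Or.inl ⟨h1, h3⟩
    · intro a ha0 ha
      -- indices of blocks meeting `A`
      let I : Set ℕ := {i | ∃ n ∈ A, a i ≤ n ∧ n < a (i + 1)}
      have hI : I.Infinite := by
        intro hcon
        apply hA
        have : A ⊆ ⋃ i ∈ I, Set.Ico (a i) (a (i + 1)) := by
          intro n hn
          obtain ⟨i, hi1, hi2⟩ := exists_block ha0 ha n
          exact mem_biUnion (show i ∈ I from ⟨n, hn, hi1, hi2⟩) ⟨hi1, hi2⟩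
        exact (hcon.biUnion fun i _ => Set.finite_Ico _ _).subset this
      obtain ⟨S, hS⟩ := exists_split_countable (fun _ : Unit => I) (fun _ => hI)
      refine ⟨S, (hS ()).1.mono (fun n hn => hn.2), ?_, ?_⟩
      · have h1 : S.Infinite := (hS ()).1.mono (fun n hn => hn.2)
        have h2 := h1.image ha.injective.injOn
        refine h2.mono ?_
        rintro _ ⟨i, hi, rfl⟩
        exact mem_biUnion hi ⟨le_rfl, ha (Nat.lt_succ_self i)⟩
      · have h1 : ∀ i ∈ I, ∃ n, n ∈ A ∧ a i ≤ n ∧ n < a (i + 1) := fun i hi => hi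
        choose! f hf using h1
        have huniq : ∀ i j n, a i ≤ n → n < a (i + 1) → a j ≤ n → n < a (j + 1) → i = j := by
          intro i j n h1 h2 h3 h4
          by_contra hne
          rcases lt_or_gt_of_ne hne with h | h
          · have := ha.monotone (show i + 1 ≤ j from h)
            omega
          · have := ha.monotone (show j + 1 ≤ i from h)
            omega
        have h2 : Set.InjOn f (I \ S) := by
          intro i hi j hj hij
          exact huniq i j (f i) (hf i hi.1).2.1 (hf i hi.1).2.2 (hij ▸ (hf j hj.1).2.1)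
            (hij ▸ (hf j hj.1).2.2)
        refine ((hS ()).2.image h2).mono ?_
        rintro _ ⟨i, hi, rfl⟩
        refine ⟨(hf i hi.1).1, ?_⟩
        intro hcon
        obtain ⟨j, hj, hj'⟩ := mem_iUnion₂.1 hcon
        have := huniq i j (f i) (hf i hi.1).2.1 (hf i hi.1).2.2 hj'.1 hj'.2
        exact hi.2 (this ▸ hj)
  · rw [Set.eq_empty_iff_forall_notMem]
    intro B hB
    have h1 : B.Infinite := by
      have := hB _ ⟨⟨Set.univ, Set.infinite_univ⟩, rfl⟩
      exact this.1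
    have h2 := hB _ ⟨⟨B, h1⟩, rfl⟩
    have h3 : (B \ B).Infinite := h2.2
    simp at h3


/-- The additivity number of the class of sets of reals with Split(Ω,Λ) is at most the cofinality
of the ultrafilter number. -/
theorem additivity_le_cof : additivity splitClass ≤ ultrafilterNumber.ord.cof := by
  classical
  obtain ⟨X, hX, hXn⟩ := exists_not_split
  let T := ultrafilterNumber.ord.ToType
  have hT : Cardinal.mk T = ultrafilterNumber := Cardinal.mk_ord_toType _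
  obtain ⟨φ⟩ : Nonempty (T ≃ X) := Cardinal.eq.1 (hT.trans hX.symm)
  obtain ⟨s, hs1, hs2⟩ := Order.exists_cof_eq T
  rw [Ordinal.cof_toType] at hs2
  let P : T → Set ℝ := fun t => {x | ∃ t' : T, t' ≤ t ∧ ((φ t' : X) : ℝ) = x}
  have hPcard : ∀ t, Cardinal.mk (P t) < ultrafilterNumber := by
    intro t
    have h1 : P t = (fun t' : T => ((φ t' : X) : ℝ)) '' (Set.Iic t) := by
      ext x
      simp [P]
    rw [h1]
    refine lt_of_le_of_lt Cardinal.mk_image_le ?_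
    have h2 : (Set.Iic t) = insert t (Set.Iio t) := by
      ext x
      simp [le_iff_eq_or_lt]
    rw [h2]
    refine lt_of_le_of_lt Cardinal.mk_insert_le ?_
    have h3 : Cardinal.mk (Set.Iio t) < ultrafilterNumber := Cardinal.mk_Iio_toType_ord_lt t
    exact Cardinal.add_lt_of_lt aleph0_lt_ultrafilterNumber.le h3
      (lt_of_lt_of_le Cardinal.one_lt_aleph0 aleph0_lt_ultrafilterNumber.le)
  have hun : ⋃₀ (P '' s) = X := by
    ext x
    constructor
    · rintro ⟨_, ⟨t, _, rfl⟩, ⟨t', _, rfl⟩⟩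
      exact (φ t').2
    · intro hx
      obtain ⟨t, ht, ht'⟩ := hs1 (φ.symm ⟨x, hx⟩)
      exact ⟨P t, ⟨t, ht, rfl⟩, ⟨φ.symm ⟨x, hx⟩, ht', by simp⟩⟩
  calc additivity splitClass ≤ Cardinal.mk (P '' s) := by
        refine csInf_le' ⟨P '' s, ?_, ?_, rfl⟩
        · rintro _ ⟨t, _, rfl⟩
          exact split_of_card_lt (hPcard t)
        · rw [hun]
          exact hXn
    _ ≤ Cardinal.mk s := Cardinal.mk_image_le
    _ = ultrafilterNumber.ord.cof := hs2


/-- Main combinatorial consequence of `u < g`: a family of sets which for every interval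
partition has a member missing infinitely many blocks can, after collapsing the blocks of one
partition, be refined below each element of an ultrafilter base. -/
theorem exists_common_partition (hug : ultrafilterNumber < groupwiseDensityNumber)
    {p : Ultrafilter ℕ} {𝓑 : Set (Set ℕ)} (hp1 : ∀ A ∈ p, A.Infinite)
    (hp2 : ∀ A : Set ℕ, A ∈ p ↔ ∃ b ∈ 𝓑, b ⊆ A) (hcard : Cardinal.mk 𝓑 = ultrafilterNumber)
    (𝓕 : Set (Set ℕ)) (h𝓕 : ∀ j : ℕ → ℕ, StrictMono j →
      ∃ E ∈ 𝓕, {k | ∀ n, j k ≤ n → n < j (k + 1) → n ∉ E}.Infinite) :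
    ∃ b : ℕ → ℕ, StrictMono b ∧ ∀ P ∈ 𝓑, ∃ E ∈ 𝓕, ∃ N, ∀ k, N ≤ k →
      (∃ n ∈ E, b k ≤ n ∧ n < b (k + 1)) → ∃ n ∈ P, b k ≤ n ∧ n < b (k + 1) := by
  classical
  have h𝓑p : ∀ P ∈ 𝓑, P ∈ p := fun P hP => (hp2 P).2 ⟨P, hP, Subset.rfl⟩
  let G : Set ℕ → Set (Set ℕ) := fun P => {B | B.Infinite ∧ ∃ E ∈ 𝓕, ∃ N : ℕ, ∀ b ∈ B, ∀ b' ∈ B,
    N ≤ b → b < b' → ∀ n, b ≤ n → n < b' → n ∈ E → ∃ n' ∈ P, b ≤ n' ∧ n' < b'}
  have hG : ∀ P ∈ 𝓑, IsGroupwiseDense (G P) := by
    intro P hP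
    have hPinf : P.Infinite := hp1 P (h𝓑p P hP)
    refine ⟨fun A hA => hA.1, ?_, ?_⟩
    · rintro A ⟨_, E, hE, N, hA⟩ B hB hfin
      refine ⟨hB, E, hE, ?_⟩
      obtain ⟨N', hN'⟩ := hfin.bddAbove
      refine ⟨max N (N' + 1), fun b hb b' hb' hN hbb' => ?_⟩
      have hbA : b ∈ A := by
        by_contra h
        have := hN' ⟨hb, h⟩
        omega
      have hbA' : b' ∈ A := by
        by_contra h
        have := hN' ⟨hb', h⟩
        omega
      exact hA b hbA b' hbA' (by omega) hbb'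
    · intro a ha0 ha
      have hnext : ∀ c : ℕ, ∃ c' : ℕ, c + 1 < c' ∧ ∃ n ∈ P, a (c + 1) ≤ n ∧ n < a c' := by
        intro c
        obtain ⟨n, hn, hn'⟩ := (Set.infinite_iff_exists_gt.1 hPinf) (a (c + 1))
        refine ⟨max (c + 2) (n + 1), by omega, n, hn, hn'.le, ?_⟩
        exact lt_of_lt_of_le (Nat.lt_succ_self n)
          (le_trans (le_max_right _ _) (ha.id_le _))
      choose nx hnx1 hnx2 using hnext
      obtain ⟨c, hc⟩ : ∃ c : ℕ → ℕ, ∀ i, c (i + 1) = nx (c i) :=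
        ⟨fun i => Nat.rec 0 (fun _ r => nx r) i, fun i => rfl⟩
      have hcmono : StrictMono c := strictMono_nat_of_lt_succ (fun i => by
        rw [hc]
        have := hnx1 (c i)
        omega)
      obtain ⟨E, hE, hy⟩ := h𝓕 (fun k => a (c k)) (ha.comp hcmono)
      refine ⟨c '' {k | ∀ n, a (c k) ≤ n → n < a (c (k + 1)) → n ∉ E},
        hy.image hcmono.injective.injOn, ?_, E, hE, 0, ?_⟩
      · have h1 := (hy.image hcmono.injective.injOn).image ha.injective.injOn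
        refine h1.mono ?_
        rintro _ ⟨i, hi, rfl⟩
        exact mem_biUnion hi ⟨le_rfl, ha (Nat.lt_succ_self i)⟩
      · intro b hb b' hb' _ hbb' n hn1 hn2 hyn
        obtain ⟨_, ⟨k, hk, rfl⟩, hbk⟩ := mem_iUnion₂.1 hb
        obtain ⟨_, ⟨k', hk', rfl⟩, hbk'⟩ := mem_iUnion₂.1 hb'
        have hlt : c k + 1 < c (k + 1) := by
          rw [hc]
          exact hnx1 _
        rcases lt_trichotomy k k' with h | h | h
        · obtain ⟨n', hn', h1, h2⟩ := hnx2 (c k)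
          refine ⟨n', hn', ?_, ?_⟩
          · exact le_trans hbk.2.le h1
          · have h3 : a (nx (c k)) ≤ a (c k') := ha.monotone (by
              rw [← hc]
              exact hcmono.monotone h)
            exact lt_of_lt_of_le h2 (h3.trans hbk'.1)
        · subst h
          exact absurd hyn (hk n (hbk.1.trans hn1)
            (lt_of_lt_of_le (hn2.trans hbk'.2) (ha.monotone hlt.le)))
        · exfalso
          have h3 : a (c k' + 1) ≤ a (c k) := ha.monotone (by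
            have := hcmono.monotone (show k' + 1 ≤ k from h)
            have hlt' : c k' + 1 < c (k' + 1) := by
              rw [hc]
              exact hnx1 _
            omega)
          have h4 := hbk'.2
          have h5 := hbk.1
          omega
  have hne : ⋂₀ (G '' 𝓑) ≠ ∅ := by
    intro hcon
    have h1 : groupwiseDensityNumber ≤ Cardinal.mk (G '' 𝓑) :=
      groupwiseDensityNumber_le (by rintro _ ⟨P, hP, rfl⟩; exact hG P hP) hcon
    have h2 : Cardinal.mk (G '' 𝓑) ≤ Cardinal.mk 𝓑 := Cardinal.mk_image_le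
    rw [hcard] at h2
    exact absurd (h1.trans h2) (not_le.2 hug)
  obtain ⟨B, hB⟩ := Set.nonempty_iff_ne_empty.2 hne
  have hBG : ∀ P ∈ 𝓑, B ∈ G P := fun P hP => hB _ ⟨P, hP, rfl⟩
  obtain ⟨P0, hP0, -⟩ := (hp2 Set.univ).1 Filter.univ_mem
  have hBinf : B.Infinite := (hBG P0 hP0).1
  obtain ⟨b, hbmono, hbB⟩ : ∃ b : ℕ → ℕ, StrictMono b ∧ ∀ k, b k ∈ B := by
    have : Infinite B := hBinf.to_subtype
    exact ⟨fun k => Nat.Subtype.orderIsoOfNat B k, fun k l hkl => by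
      exact (Nat.Subtype.orderIsoOfNat B).strictMono hkl, fun k => (Nat.Subtype.orderIsoOfNat B k).2⟩
  refine ⟨b, hbmono, fun P hP => ?_⟩
  obtain ⟨_, E, hE, N, hy⟩ := hBG P hP
  refine ⟨E, hE, N, fun k hk hyk => ?_⟩
  obtain ⟨n, hn3, hn1, hn2⟩ := hyk
  exact hy (b k) (hbB k) (b (k + 1)) (hbB (k + 1)) (le_trans hk (hbmono.id_le k))
    (hbmono (Nat.lt_succ_self k)) n hn1 hn2 hn3

theorem exists_block' {b : ℕ → ℕ} (hb : StrictMono b) (m : ℕ) (hm : b 0 ≤ m) :
    ∃ i, b i ≤ m ∧ m < b (i + 1) := by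
  classical
  have hex : ∃ i, m < b (i + 1) := ⟨m, lt_of_lt_of_le (Nat.lt_succ_self m) (hb.id_le (m + 1))⟩
  refine ⟨Nat.find hex, ?_, Nat.find_spec hex⟩
  rcases Nat.eq_zero_or_pos (Nat.find hex) with h0 | h0
  · rw [h0]
    exact hm
  · obtain ⟨t, ht⟩ : ∃ t, Nat.find hex = t + 1 := ⟨Nat.find hex - 1, by omega⟩
    have := Nat.find_min hex (m := t) (by omega)
    rw [ht]
    omega

theorem block_unique {b : ℕ → ℕ} (hb : StrictMono b) {i j n : ℕ} (h1 : b i ≤ n)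
    (h2 : n < b (i + 1)) (h3 : b j ≤ n) (h4 : n < b (j + 1)) : i = j := by
  by_contra hne
  rcases lt_or_gt_of_ne hne with h | h
  · have := hb.monotone (show i + 1 ≤ j from h)
    omega
  · have := hb.monotone (show j + 1 ≤ i from h)
    omega

/-- Families of fewer than `g` monotone functions are bounded modulo any nonprincipal
ultrafilter. -/
theorem exists_bound_mod {p : Ultrafilter ℕ} (hp1 : ∀ A ∈ p, A.Infinite) (𝓓 : Set (ℕ → ℕ))
    (hmono : ∀ f ∈ 𝓓, Monotone f) (hcard : Cardinal.mk 𝓓 < groupwiseDensityNumber) :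
    ∃ h : ℕ → ℕ, Monotone h ∧ ∀ f ∈ 𝓓, {n | f n ≤ h n} ∈ p := by
  classical
  rcases 𝓓.eq_empty_or_nonempty with h0 | ⟨f0, hf0⟩
  · exact ⟨fun _ => 0, fun _ _ _ => le_rfl, fun f hf => by simp [h0] at hf⟩
  have hcof : ∀ N : ℕ, {n | N ≤ n} ∈ p := by
    intro N
    rcases p.mem_or_compl_mem {n | N ≤ n} with h | h
    · exact h
    · exfalso
      refine hp1 _ h ((Set.finite_Iio N).subset ?_)
      intro n hn
      simpa using hn
  let G : (ℕ → ℕ) → Set (Set ℕ) := fun f =>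
    {B | B.Infinite ∧ {n | ∀ m ∈ B, n < m → f n ≤ m} ∈ p}
  have hG : ∀ f ∈ 𝓓, IsGroupwiseDense (G f) := by
    intro f hf
    refine ⟨fun A hA => hA.1, ?_, ?_⟩
    · rintro A ⟨_, hA⟩ B hB hfin
      refine ⟨hB, ?_⟩
      obtain ⟨N, hN⟩ := hfin.bddAbove
      filter_upwards [hA, hcof N] with n h1 h2 m hm hnm
      refine h1 m ?_ hnm
      by_contra h
      have := hN ⟨hm, h⟩
      have h2' : N ≤ n := h2
      omega
    · intro a ha0 ha
      obtain ⟨c, hc0, hc⟩ : ∃ c : ℕ → ℕ, c 0 = 0 ∧ ∀ i, c (i + 1) = max (c i + 1) (f (a (c i))) :=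
        ⟨fun i => Nat.rec 0 (fun _ r => max (r + 1) (f (a r))) i, rfl, fun i => rfl⟩
      have hcmono : StrictMono c := strictMono_nat_of_lt_succ (fun i => by rw [hc]; omega)
      have hac : StrictMono (fun k => a (c k)) := ha.comp hcmono
      have hfc : ∀ k, f (a (c k)) ≤ a (c (k + 1)) := by
        intro k
        calc f (a (c k)) ≤ c (k + 1) := by rw [hc]; exact le_max_right _ _
          _ ≤ a (c (k + 1)) := ha.id_le _
      let R : ℕ → Set ℕ := fun r => {n | ∃ k, k % 3 = r ∧ a (c k) ≤ n ∧ n < a (c (k + 1))}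
      have hR : ∃ r, R r ∈ p := by
        have hall : (R 0 ∪ R 1 ∪ R 2) ∈ p := by
          have : (R 0 ∪ R 1 ∪ R 2) = Set.univ := by
            rw [Set.eq_univ_iff_forall]
            intro n
            obtain ⟨k, hk1, hk2⟩ := exists_block' hac n (by
              show a (c 0) ≤ n
              rw [hc0, ha0]
              exact Nat.zero_le _)
            have h3 : k % 3 = 0 ∨ k % 3 = 1 ∨ k % 3 = 2 := by omega
            rcases h3 with h3 | h3 | h3
            · exact Or.inl (Or.inl ⟨k, h3, hk1, hk2⟩)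
            · exact Or.inl (Or.inr ⟨k, h3, hk1, hk2⟩)
            · exact Or.inr ⟨k, h3, hk1, hk2⟩
          rw [this]
          exact Filter.univ_mem
        rcases Ultrafilter.union_mem_iff.1 hall with h | h
        · rcases Ultrafilter.union_mem_iff.1 h with h | h
          · exact ⟨0, h⟩
          · exact ⟨1, h⟩
        · exact ⟨2, h⟩
      obtain ⟨r, hr⟩ := hR
      have hKinf : {k : ℕ | k % 3 = (r + 2) % 3}.Infinite := by
        rw [Set.infinite_iff_exists_gt]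
        intro N
        refine ⟨3 * (N + 1) + (r + 2) % 3, ?_, by omega⟩
        show (3 * (N + 1) + (r + 2) % 3) % 3 = (r + 2) % 3
        omega
      have hCinf := hKinf.image hcmono.injective.injOn
      refine ⟨c '' {k | k % 3 = (r + 2) % 3}, hCinf, ?_, ?_⟩
      · refine (hCinf.image ha.injective.injOn).mono ?_
        rintro _ ⟨i, hi, rfl⟩
        exact mem_biUnion hi ⟨le_rfl, ha (Nat.lt_succ_self i)⟩
      · filter_upwards [hr] with n hn m hm hnm
        obtain ⟨k, hk, hk1, hk2⟩ := hn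
        obtain ⟨_, ⟨l, hl, rfl⟩, hl1, hl2⟩ := mem_iUnion₂.1 hm
        have hl' : l % 3 = (r + 2) % 3 := hl
        have hkl : k ≤ l := by
          by_contra hcon
          have h3 : c l + 1 ≤ c k := hcmono (by omega)
          have h4 : a (c l + 1) ≤ a (c k) := ha.monotone h3
          omega
        have hkl2 : k + 2 ≤ l := by omega
        calc f n ≤ f (a (c (k + 1))) := hmono f hf hk2.le
          _ ≤ a (c (k + 2)) := hfc (k + 1)
          _ ≤ a (c l) := hac.monotone hkl2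
          _ ≤ m := hl1
  have hne : ⋂₀ (G '' 𝓓) ≠ ∅ := by
    intro hcon
    have h1 : groupwiseDensityNumber ≤ Cardinal.mk (G '' 𝓓) :=
      groupwiseDensityNumber_le (by rintro _ ⟨P, hP, rfl⟩; exact hG P hP) hcon
    exact absurd (h1.trans Cardinal.mk_image_le) (not_le.2 hcard)
  obtain ⟨B, hB⟩ := Set.nonempty_iff_ne_empty.2 hne
  have hBG : ∀ f ∈ 𝓓, B ∈ G f := fun P hP => hB _ ⟨P, hP, rfl⟩
  have hBinf : B.Infinite := (hBG f0 hf0).1
  have hnx : ∀ n, ∃ m ∈ B, n < m := fun n => (Set.infinite_iff_exists_gt.1 hBinf) n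
  choose nx hnx1 hnx2 using hnx
  refine ⟨fun n => (Finset.range (n + 1)).sup nx, fun n m hnm =>
    Finset.sup_mono (Finset.range_mono (by omega)), fun f hf => ?_⟩
  filter_upwards [(hBG f hf).2] with n hn
  exact le_trans (hn (nx n) (hnx1 n) (hnx2 n))
    (Finset.le_sup (f := nx) (Finset.mem_range.2 (Nat.lt_succ_self n)))

/-- If `u < g` then every family of fewer than `u` monotone functions is bounded. -/
theorem exists_bound (hug : ultrafilterNumber < groupwiseDensityNumber) (𝓓 : Set (ℕ → ℕ))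
    (hmono : ∀ f ∈ 𝓓, Monotone f) (hcard : Cardinal.mk 𝓓 < ultrafilterNumber) :
    ∃ h : ℕ → ℕ, ∀ f ∈ 𝓓, ∃ N, ∀ n, N ≤ n → f n ≤ h n := by
  classical
  obtain ⟨𝓑, ⟨p, hp1, hp2⟩, h𝓑card⟩ := exists_isUltrafilterBase_card
  obtain ⟨h, hh, hE⟩ := exists_bound_mod hp1 𝓓 hmono (hcard.trans hug)
  -- finite intersections
  let E : Finset 𝓓 → Set ℕ := fun T => {n | ∀ f ∈ T, f.1 n ≤ h n}
  have hEp : ∀ T, E T ∈ p := by
    intro T
    have : E T = ⋂ f ∈ T, {n | f.1 n ≤ h n} := by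
      ext n
      simp [E]
    rw [this]
    exact (Filter.biInter_finset_mem T).2 (fun f _ => hE f.1 f.2)
  by_cases hmeag : ∀ j : ℕ → ℕ, StrictMono j →
      ∃ E' ∈ Set.range E, {k | ∀ n, j k ≤ n → n < j (k + 1) → n ∉ E'}.Infinite
  · exfalso
    obtain ⟨b, hb, hbP⟩ := exists_common_partition hug hp1 hp2 h𝓑card (Set.range E) hmeag
    -- block index
    have hπ : ∀ n, ∃ i, b 0 ≤ n → b i ≤ n ∧ n < b (i + 1) := by
      intro n
      by_cases hn : b 0 ≤ n
      · obtain ⟨i, hi⟩ := exists_block' hb n hn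
        exact ⟨i, fun _ => hi⟩
      · exact ⟨0, fun h => absurd h hn⟩
    choose π hπ using hπ
    have hπeq : ∀ k n, b k ≤ n → n < b (k + 1) → π n = k := by
      intro k n h1 h2
      have h3 := hπ n (le_trans (hb.monotone (Nat.zero_le k)) h1)
      exact block_unique hb h3.1 h3.2 h1 h2
    have hcof : {n | b 0 ≤ n} ∈ p := by
      rcases p.mem_or_compl_mem {n | b 0 ≤ n} with h | h
      · exact h
      · exfalso
        refine hp1 _ h ((Set.finite_Iio (b 0)).subset ?_)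
        intro n hn
        simpa using hn
    let q : Ultrafilter ℕ := p.map π
    have hq : ∀ A, A ∈ q ↔ π ⁻¹' A ∈ p := fun A => Iff.rfl
    let 𝓒 : Set (Set ℕ) := Set.range (fun w : Finset 𝓓 × ℕ =>
      {k | w.2 ≤ k ∧ ∃ n ∈ E w.1, b k ≤ n ∧ n < b (k + 1)})
    have hinf : ∀ A ∈ q, A.Infinite := by
      intro A hA hfin
      have h1 : π ⁻¹' A ∩ {n | b 0 ≤ n} ∈ p := Filter.inter_mem hA hcof
      refine hp1 _ h1 ?_
      refine (hfin.biUnion (t := fun k => Set.Ico (b k) (b (k + 1)))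
        (fun k _ => Set.finite_Ico _ _)).subset ?_
      rintro n ⟨hn1, hn2⟩
      exact mem_biUnion hn1 (hπ n hn2)
    have hbase : IsUltrafilterBase 𝓒 := by
      refine ⟨q, hinf, fun A => ?_⟩
      constructor
      · intro hA
        obtain ⟨P, hP, hPA⟩ := (hp2 _).1 ((hq A).1 hA)
        obtain ⟨_, ⟨T, rfl⟩, N, hN⟩ := hbP P hP
        refine ⟨_, ⟨(T, N), rfl⟩, ?_⟩
        rintro k ⟨hk1, hk2⟩
        obtain ⟨n, hn, hn1, hn2⟩ := hN k hk1 hk2
        have h1 : π n ∈ A := hPA hn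
        rw [hπeq k n hn1 hn2] at h1
        exact h1
      · rintro ⟨_, ⟨⟨T, N⟩, rfl⟩, hsub⟩
        rw [hq]
        have h2 : {n | b N ≤ n} ∈ p := by
          rcases p.mem_or_compl_mem {n | b N ≤ n} with h | h
          · exact h
          · exfalso
            refine hp1 _ h ((Set.finite_Iio (b N)).subset ?_)
            intro n hn
            simpa using hn
        filter_upwards [hEp T, h2] with n hn1 hn2
        apply hsub
        have hn2' : b N ≤ n := hn2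
        have h3 := hπ n (le_trans (hb.monotone (Nat.zero_le N)) hn2')
        refine ⟨?_, n, hn1, h3.1, h3.2⟩
        by_contra hcon
        have h4 : b (π n + 1) ≤ b N := hb.monotone (by
          have : π n < N := not_le.1 hcon
          omega)
        omega
    have hcard' : Cardinal.mk 𝓒 < ultrafilterNumber := by
      calc Cardinal.mk 𝓒 ≤ Cardinal.mk (Finset 𝓓 × ℕ) := Cardinal.mk_range_le
        _ = Cardinal.mk (Finset 𝓓) * Cardinal.aleph0 := by simp
        _ ≤ max (max (Cardinal.mk (Finset 𝓓)) Cardinal.aleph0) Cardinal.aleph0 :=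
          Cardinal.mul_le_max _ _
        _ < ultrafilterNumber := by
          have h1 : Cardinal.mk (Finset 𝓓) < ultrafilterNumber := by
            rcases lt_or_ge (Cardinal.mk 𝓓) Cardinal.aleph0 with h | h
            · have : Finite 𝓓 := Cardinal.lt_aleph0_iff_finite.1 h
              exact lt_trans (Cardinal.lt_aleph0_of_finite _) aleph0_lt_ultrafilterNumber
            · have : Infinite 𝓓 := Cardinal.infinite_iff.2 h
              rw [Cardinal.mk_finset_of_infinite]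
              exact hcard
          exact max_lt (max_lt h1 aleph0_lt_ultrafilterNumber) aleph0_lt_ultrafilterNumber
    exact absurd (ultrafilterNumber_le hbase) (not_le.2 hcard')
  · push Not at hmeag
    obtain ⟨j, hj, hj'⟩ := hmeag
    refine ⟨fun n => h (j (n + 2)), fun f hf => ?_⟩
    have h1 := hj' (E {⟨f, hf⟩}) ⟨_, rfl⟩
    have h1' : {k | ∀ n, j k ≤ n → n < j (k + 1) → n ∉ E {⟨f, hf⟩}}.Finite := by
      simpa using h1
    obtain ⟨K, hK⟩ := h1'.bddAbove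
    refine ⟨j (K + 1), fun n hn => ?_⟩
    obtain ⟨k, hk1, hk2⟩ := exists_block' hj n (le_trans (hj.monotone (Nat.zero_le _)) hn)
    have hKk : K < k := by
      by_contra hcon
      have : j (k + 1) ≤ j (K + 1) := hj.monotone (by omega)
      omega
    have h2 : ¬ ∀ n, j (k + 1) ≤ n → n < j (k + 1 + 1) → n ∉ E {⟨f, hf⟩} := by
      intro hcon
      have : k + 1 ≤ K := hK hcon
      omega
    push Not at h2
    obtain ⟨n', hn1, hn2, hn3⟩ := h2
    have h3 : f n' ≤ h n' := hn3 ⟨f, hf⟩ (by simp)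
    have hkn : k ≤ n := le_trans (hj.id_le k) hk1
    calc f n ≤ f n' := hmono f hf (by omega)
      _ ≤ h n' := h3
      _ ≤ h (j (k + 2)) := hh hn2.le
      _ ≤ h (j (n + 2)) := hh (hj.monotone (by omega))

/-- Split(Ω,Λ) for indexed families. -/
theorem exists_indexed_split {Z : Type*} [TopologicalSpace Z] (hS : SplitOL Z) (V : ℕ → Set Z)
    (hV : ∀ k, IsOpen (V k)) (hω : ∀ F : Set Z, F.Finite → {k | F ⊆ V k}.Infinite) :
    ∃ S : Set ℕ, ∀ z, {k | k ∈ S ∧ z ∈ V k}.Infinite ∧ {k | k ∉ S ∧ z ∈ V k}.Infinite := by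
  classical
  by_cases hI : {k | V k = Set.univ}.Infinite
  · obtain ⟨S, hS⟩ := exists_split_countable (fun _ : Unit => {k | V k = Set.univ}) (fun _ => hI)
    refine ⟨S, fun z => ⟨(hS ()).1.mono ?_, (hS ()).2.mono ?_⟩⟩
    · rintro k ⟨h1, h2⟩
      exact ⟨h2, (show V k = Set.univ from h1) ▸ mem_univ z⟩
    · rintro k ⟨h1, h2⟩
      exact ⟨h2, (show V k = Set.univ from h1) ▸ mem_univ z⟩
  · obtain ⟨𝒱, 𝒲, hun, hdisj, ⟨𝒱', h𝒱', hVl⟩, ⟨𝒲', h𝒲', hWl⟩⟩ :=
      hS (V '' {k | V k ≠ Set.univ}) (by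
        refine ⟨?_, ?_, ?_⟩
        · rintro _ ⟨k, _, rfl⟩
          exact hV k
        · rintro ⟨k, hk, hk'⟩
          exact hk hk'
        · intro F hF
          obtain ⟨k, hk1, hk2⟩ := ((hω F hF).sdiff (Set.not_infinite.1 hI)).nonempty
          exact ⟨V k, ⟨k, hk2, rfl⟩, hk1⟩)
    refine ⟨{k | V k ∈ 𝒱}, fun z => ⟨?_, ?_⟩⟩
    · refine Set.Infinite.of_image V ((hVl.2.2 z).mono ?_)
      rintro W ⟨hW, hz⟩
      obtain ⟨k, _, rfl⟩ : W ∈ V '' {k | V k ≠ Set.univ} := hun ▸ Or.inl (h𝒱' hW)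
      exact ⟨k, ⟨h𝒱' hW, hz⟩, rfl⟩
    · refine Set.Infinite.of_image V ((hWl.2.2 z).mono ?_)
      rintro W ⟨hW, hz⟩
      obtain ⟨k, _, rfl⟩ : W ∈ V '' {k | V k ≠ Set.univ} := hun ▸ Or.inr (h𝒲' hW)
      exact ⟨k, ⟨fun h => (Set.disjoint_left.1 hdisj) h (h𝒲' hW), hz⟩, rfl⟩

/-- If `u < g`, then in a space with Split(Ω,Λ) every indexed open ω-cover has an interval
partition such that every point is met by almost all blocks. -/
theorem exists_partition_of_split {Z : Type*} [TopologicalSpace Z]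
    (hug : ultrafilterNumber < groupwiseDensityNumber) (hS : SplitOL Z) (U : ℕ → Set Z)
    (hUo : ∀ n, IsOpen (U n)) (hω : ∀ F : Set Z, F.Finite → {n | F ⊆ U n}.Infinite) :
    ∃ j : ℕ → ℕ, StrictMono j ∧ ∀ z, {k | ∀ n, j k ≤ n → n < j (k + 1) → z ∉ U n}.Finite := by
  classical
  by_contra hcon
  push Not at hcon
  obtain ⟨𝓑, ⟨p, hp1, hp2⟩, hcard⟩ := exists_isUltrafilterBase_card
  obtain ⟨b, hb, hbP⟩ := exists_common_partition hug hp1 hp2 hcard
    (Set.range (fun z : Z => {n | z ∈ U n})) (by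
      intro j hj
      obtain ⟨z, hz⟩ := hcon j hj
      exact ⟨_, ⟨z, rfl⟩, hz⟩)
  let V : ℕ → Set Z := fun k => ⋃ n ∈ Finset.Ico (b k) (b (k + 1)), U n
  have hVmem : ∀ k y, y ∈ V k ↔ ∃ n, b k ≤ n ∧ n < b (k + 1) ∧ y ∈ U n := by
    intro k y
    simp [V, and_assoc]
  obtain ⟨S, hSspl⟩ := exists_indexed_split hS V (fun k => isOpen_biUnion fun n _ => hUo n) (by
    intro F hF
    rw [Set.infinite_iff_exists_gt]
    intro N
    obtain ⟨n, hn, hn'⟩ := (Set.infinite_iff_exists_gt.1 (hω F hF)) (b (N + 1))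
    obtain ⟨i, hi1, hi2⟩ := exists_block' hb n (le_trans (hb.monotone (Nat.zero_le _)) hn'.le)
    refine ⟨i, fun x hx => (hVmem i x).2 ⟨n, hi1, hi2, hn hx⟩, ?_⟩
    by_contra hcon
    have : b (i + 1) ≤ b (N + 1) := hb.monotone (by omega)
    omega)
  let T : Set ℕ := {n | ∃ k ∈ S, b k ≤ n ∧ n < b (k + 1)}
  rcases p.mem_or_compl_mem T with hT | hT
  · obtain ⟨P, hP, hPT⟩ := (hp2 T).1 hT
    obtain ⟨_, ⟨y, rfl⟩, N, hy⟩ := hbP P hP
    obtain ⟨k, ⟨hk1, hk2⟩, hk3⟩ := (Set.infinite_iff_exists_gt.1 (hSspl y).2) N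
    obtain ⟨n0, h1, h2, h3⟩ := (hVmem k y).1 hk2
    obtain ⟨n, hn, hn1, hn2⟩ := hy k hk3.le ⟨n0, h3, h1, h2⟩
    obtain ⟨k', hk', h1, h2⟩ := hPT hn
    have := block_unique hb hn1 hn2 h1 h2
    exact hk1 (this ▸ hk')
  · obtain ⟨P, hP, hPT⟩ := (hp2 Tᶜ).1 hT
    obtain ⟨_, ⟨y, rfl⟩, N, hy⟩ := hbP P hP
    obtain ⟨k, ⟨hk1, hk2⟩, hk3⟩ := (Set.infinite_iff_exists_gt.1 (hSspl y).1) N
    obtain ⟨n0, h1, h2, h3⟩ := (hVmem k y).1 hk2
    obtain ⟨n, hn, hn1, hn2⟩ := hy k hk3.le ⟨n0, h3, h1, h2⟩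
    exact hPT hn ⟨k, hk1, hn1, hn2⟩

/-- If `u < g`, then unions of fewer than `u` sets with Split(Ω,Λ) satisfy Split(Ω,Λ). -/
theorem split_sUnion (hug : ultrafilterNumber < groupwiseDensityNumber) (𝓕 : Set (Set ℝ))
    (h𝓕 : 𝓕 ⊆ splitClass) (hcard : Cardinal.mk 𝓕 < ultrafilterNumber) :
    ⋃₀ 𝓕 ∈ splitClass := by
  classical
  show SplitOL (⋃₀ 𝓕 : Set ℝ)
  intro 𝒰 h𝒰
  obtain ⟨𝒰', hsub, hcount, homega⟩ := exists_countable_omega h𝒰
  have hinf : 𝒰'.Infinite := (omega_infinite homega ∅ Set.finite_empty).mono (fun U hU => hU.1)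
  obtain ⟨U, hUinj, hUr⟩ : ∃ U : ℕ → Set (⋃₀ 𝓕 : Set ℝ), Function.Injective U ∧
      Set.range U = 𝒰' := by
    have : Infinite 𝒰' := hinf.to_subtype
    have : Countable 𝒰' := hcount.to_subtype
    obtain ⟨e⟩ := nonempty_equiv_of_countable (α := ℕ) (β := 𝒰')
    refine ⟨fun n => (e n : Set (⋃₀ 𝓕 : Set ℝ)), fun n m h => e.injective (Subtype.ext h), ?_⟩
    ext V
    constructor
    · rintro ⟨n, rfl⟩
      exact (e n).2
    · intro hV
      exact ⟨e.symm ⟨V, hV⟩, by simp⟩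
  have hUo : ∀ n, IsOpen (U n) := fun n => homega.1 _ (hUr ▸ ⟨n, rfl⟩)
  have hUinf : ∀ F : Set (⋃₀ 𝓕 : Set ℝ), F.Finite → {n | F ⊆ U n}.Infinite := by
    intro F hF
    refine Set.Infinite.of_image U ((omega_infinite homega F hF).mono ?_)
    rintro V ⟨hV, hz⟩
    obtain ⟨n, rfl⟩ : V ∈ Set.range U := hUr ▸ hV
    exact ⟨n, hz, rfl⟩
  -- a partition for each member of the family
  have hpart : ∀ X : 𝓕, ∃ j : ℕ → ℕ, StrictMono j ∧ ∀ x : (⋃₀ 𝓕 : Set ℝ), (x : ℝ) ∈ (X : Set ℝ) →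
      {k | ∀ n, j k ≤ n → n < j (k + 1) → x ∉ U n}.Finite := by
    intro X
    have hX : (X : Set ℝ) ⊆ ⋃₀ 𝓕 := Set.subset_sUnion_of_mem X.2
    obtain ⟨j, hj, hj'⟩ := exists_partition_of_split hug (h𝓕 X.2)
      (fun n => Set.inclusion hX ⁻¹' U n)
      (fun n => (hUo n).preimage (continuous_inclusion hX)) (by
        intro F hF
        refine (hUinf (Set.inclusion hX '' F) (hF.image _)).mono ?_
        intro n hn x hx
        exact hn ⟨x, hx, rfl⟩)
    exact ⟨j, hj, fun x hx => hj' ⟨x, hx⟩⟩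
  choose j hj hj' using hpart
  obtain ⟨h, hh⟩ := exists_bound hug (Set.range (fun X : 𝓕 => fun n => j X (n + 1))) (by
      rintro _ ⟨X, rfl⟩ n m hnm
      exact (hj X).monotone (by omega)) (lt_of_le_of_lt Cardinal.mk_range_le hcard)
  obtain ⟨a, ha⟩ : ∃ a : ℕ → ℕ, ∀ i, a (i + 1) = max (a i + 1) (h (a i)) :=
    ⟨fun i => Nat.rec 0 (fun _ r => max (r + 1) (h r)) i, fun i => rfl⟩
  have hamono : StrictMono a := strictMono_nat_of_lt_succ (fun i => by rw [ha]; omega)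
  have hmeet : ∀ x : (⋃₀ 𝓕 : Set ℝ), ∃ K, ∀ i, K ≤ i → ∃ n, a i ≤ n ∧ n < a (i + 1) ∧ x ∈ U n := by
    rintro ⟨x, X, hX, hx⟩
    obtain ⟨N, hN⟩ := hh _ ⟨⟨X, hX⟩, rfl⟩
    obtain ⟨M, hM⟩ := (hj' ⟨X, hX⟩ ⟨x, X, hX, hx⟩ hx).bddAbove
    refine ⟨max N (M + 1), fun i hi => ?_⟩
    have hai : i ≤ a i := hamono.id_le i
    have h1 : ¬ ∀ n, j ⟨X, hX⟩ (a i) ≤ n → n < j ⟨X, hX⟩ (a i + 1) →
        (⟨x, X, hX, hx⟩ : (⋃₀ 𝓕 : Set ℝ)) ∉ U n := by
      intro hcon
      have : a i ≤ M := hM hcon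
      omega
    push Not at h1
    obtain ⟨n, hn1, hn2, hn3⟩ := h1
    refine ⟨n, le_trans ((hj ⟨X, hX⟩).id_le (a i)) hn1, ?_, hn3⟩
    have h2 : j ⟨X, hX⟩ (a i + 1) ≤ h (a i) := hN (a i) (by omega)
    rw [ha]
    exact lt_of_lt_of_le hn2 (h2.trans (le_max_right _ _))
  have hblocks : ∀ (r : ℕ), r < 2 → ∀ x : (⋃₀ 𝓕 : Set ℝ),
      {n | (∃ i, i % 2 = r ∧ a i ≤ n ∧ n < a (i + 1)) ∧ x ∈ U n}.Infinite := by
    intro r hr x
    obtain ⟨K, hK⟩ := hmeet x
    rw [Set.infinite_iff_exists_gt]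
    intro M
    obtain ⟨n, hn1, hn2, hn3⟩ := hK (2 * (K + M + 1) + r) (by omega)
    refine ⟨n, ⟨⟨2 * (K + M + 1) + r, by omega, hn1, hn2⟩, hn3⟩, ?_⟩
    have := hamono.id_le (2 * (K + M + 1) + r)
    have h3 : 2 * (K + M + 1) + r ≤ a (2 * (K + M + 1) + r) := this
    omega
  let S : Set ℕ := {n | ∃ i, i % 2 = 0 ∧ a i ≤ n ∧ n < a (i + 1)}
  refine ⟨U '' S, 𝒰 \ (U '' S), ?_, disjoint_sdiff_right, ⟨U '' S, Subset.rfl, ?_⟩,
    ⟨U '' Sᶜ, ?_, ?_⟩⟩
  · refine union_sdiff_cancel ?_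
    rintro _ ⟨n, _, rfl⟩
    exact hsub (hUr ▸ ⟨n, rfl⟩)
  · refine ⟨?_, ?_, ?_⟩
    · rintro _ ⟨n, _, rfl⟩
      exact hUo n
    · rintro ⟨n, _, hn⟩
      exact homega.2.1 (hUr ▸ ⟨n, hn⟩)
    · intro x
      refine ((hblocks 0 (by omega) x).image hUinj.injOn).mono ?_
      rintro _ ⟨n, ⟨hn1, hn2⟩, rfl⟩
      exact ⟨⟨n, hn1, rfl⟩, hn2⟩
  · rintro _ ⟨n, hn, rfl⟩
    refine ⟨hsub (hUr ▸ ⟨n, rfl⟩), ?_⟩
    rintro ⟨m, hm, hmn⟩
    exact hn (hUinj hmn ▸ hm)
  · refine ⟨?_, ?_, ?_⟩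
    · rintro _ ⟨n, _, rfl⟩
      exact hUo n
    · rintro ⟨n, _, hn⟩
      exact homega.2.1 (hUr ▸ ⟨n, hn⟩)
    · intro x
      refine ((hblocks 1 (by omega) x).image hUinj.injOn).mono ?_
      rintro _ ⟨n, ⟨⟨i, hi, hi1, hi2⟩, hn2⟩, rfl⟩
      refine ⟨⟨n, ?_, rfl⟩, hn2⟩
      rintro ⟨i', hi', hi1', hi2'⟩
      have := block_unique hamono hi1 hi2 hi1' hi2'
      omega

/-- The additivity number of the class of sets of reals with Split(Ω,Λ) is at most the cofinality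
of `u`, and it is equal to `u` if `u < g`. -/
theorem result : additivity splitClass ≤ ultrafilterNumber.ord.cof ∧
    (ultrafilterNumber < groupwiseDensityNumber → additivity splitClass = ultrafilterNumber) := by
  refine ⟨additivity_le_cof, fun hug => le_antisymm
    (additivity_le_cof.trans (Ordinal.cof_ord_le _)) ?_⟩
  obtain ⟨X, hX, hXn⟩ := exists_not_split
  refine le_csInf ?_ ?_
  · refine ⟨_, Set.range (fun x : X => ({(x : ℝ)} : Set ℝ)), ?_, ?_, rfl⟩
    · rintro _ ⟨x, rfl⟩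
      refine split_of_card_lt (lt_of_le_of_lt ?_ aleph0_lt_ultrafilterNumber)
      exact Cardinal.mk_le_aleph0_iff.2 (Set.countable_singleton _).to_subtype
    · have : ⋃₀ Set.range (fun x : X => ({(x : ℝ)} : Set ℝ)) = X := by
        ext y
        simp
      rw [this]
      exact hXn
  · rintro κ ⟨𝓕, h1, h2, rfl⟩
    by_contra hcon
    exact h2 (split_sUnion hug 𝓕 h1 (not_le.1 hcon))

end Pool.Agent.Results.MP_312f56_gt.UnderUltrafilterLtGroupwise
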